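import Mathlib

namespace Pool.Agent.Results.MP_0ef4f9_co.Yes

/-- the product `a 0 * a 1 * ... * a i` -/
def partProd {G : Type} [Group G] (a : ℕ → G) (i : ℕ) : G := ((List.range (i + 1)).map a).prod

def RSequenceable (G : Type) [Group G] : Prop :=
  ∃ a : ℕ → G, a 0 = 1 ∧ Set.BijOn a (Set.Iio (Nat.card G)) Set.univ ∧
    Set.InjOn (partProd a) (Set.Iio (Nat.card G - 1)) ∧ partProd a (Nat.card G - 1) = 1

def Orth (G : Type) [Group G] : Prop :=
  ∃ f : G → G, Function.Injective f ∧ f 1 = 1 ∧ Function.Injective (fun x => x⁻¹ * f x) ∧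
    ∃ x0, x0 ≠ 1 ∧ ∀ y, y ≠ 1 → ∃ k, f^[k] x0 = y

theorem Orth.rseq {G : Type} [Group G] [Finite G] (h : Orth G) : RSequenceable G := by
  obtain ⟨f, hf, f1, hq, x0, hx, hr⟩ := h
  have per := hf.mem_periodicPts x0
  set p := Function.minimalPeriod f x0 with hp
  have p0 : 0 < p := Function.minimalPeriod_pos_of_mem_periodicPts per
  have inj : Set.InjOn (fun i => f^[i] x0) (Set.Iio p) := Function.iterate_injOn_Iio_minimalPeriod
  have ne : ∀ i, f^[i] x0 ≠ 1 := fun i h => hx (hf.iterate i (by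
    rw [h, Function.iterate_fixed f1]))
  let b : ℕ → G := fun i => if i = 0 then 1 else f^[i - 1] x0
  have bij : Set.BijOn b (Set.Iio (p + 1)) Set.univ := by
    refine ⟨fun _ _ => trivial, ?_, ?_⟩
    · intro i hi j hj e
      simp only [Set.mem_Iio] at hi hj
      by_cases i0 : i = 0 <;> by_cases j0 : j = 0 <;> simp only [b, i0, j0, if_true, if_false] at e
      · omega
      · exact absurd e.symm (ne _)
      · exact absurd e (ne _)
      · have := inj (show i - 1 ∈ Set.Iio p by simp; omega) (show j - 1 ∈ Set.Iio p by simp; omega) e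
        omega
    · intro y _
      by_cases hy : y = 1
      · exact ⟨0, by simp, by simp [b, hy]⟩
      · obtain ⟨k, hk⟩ := hr y hy
        refine ⟨k % p + 1, by simpa using Nat.mod_lt k p0, ?_⟩
        simp only [b, Nat.add_one_ne_zero, if_false, Nat.add_sub_cancel]
        rw [hp, Function.iterate_mod_minimalPeriod_eq, hk]
  have card : Nat.card G = p + 1 := by
    have := bij.ncard_eq
    rw [Set.ncard_univ] at this
    rw [← this]; simp
  have qb := Finite.injective_iff_bijective.1 hq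
  have pp : ∀ i, partProd (fun i => (b i)⁻¹ * f (b i)) i = x0⁻¹ * f^[i] x0 := by
    intro i
    induction i with
    | zero => simp [partProd, b, f1]
    | succ n ih =>
      unfold partProd at ih ⊢
      rw [List.range_succ, List.map_append, List.prod_append, ih]
      simp [b, Function.iterate_succ_apply']
  refine ⟨fun i => (b i)⁻¹ * f (b i), by simp [b, f1], ?_, ?_, ?_⟩
  · rw [card]
    exact (Set.bijOn_univ.2 qb).comp bij
  · rw [card, Nat.add_sub_cancel]
    intro i hi j hj e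
    rw [pp, pp] at e
    exact inj hi hj (mul_left_cancel e)
  · rw [card, Nat.add_sub_cancel, pp, hp, Function.iterate_minimalPeriod, inv_mul_cancel]

theorem orth_of {G I : Type} [Group G] (E : I → G) (hE : Function.Bijective E) (s : I → I) (z x0 : I)
    (hs : Function.Injective s) (hz : E z = 1) (sz : s z = z)
    (hq : Function.Injective fun i => (E i)⁻¹ * E (s i)) (hx : x0 ≠ z)
    (hr : ∀ y, y ≠ z → ∃ k, s^[k] x0 = y) : Orth G := by
  let e := Equiv.ofBijective E hE
  have ee : ∀ i, e i = E i := fun _ => rfl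
  refine ⟨fun x => e (s (e.symm x)), e.injective.comp (hs.comp e.symm.injective), ?_, ?_, e x0, ?_, ?_⟩
  · show e (s (e.symm 1)) = 1
    rw [← hz, ← ee, e.symm_apply_apply, sz]
  · intro x y h
    obtain ⟨x, rfl⟩ := e.surjective x
    obtain ⟨y, rfl⟩ := e.surjective y
    simp only [e.symm_apply_apply] at h
    rw [hq h]
  · rw [← hz, ← ee]; exact e.injective.ne hx
  · intro y hy
    obtain ⟨y, rfl⟩ := e.surjective y
    obtain ⟨k, hk⟩ := hr y (fun h => hy (by rw [h, ee, hz]))
    refine ⟨k, ?_⟩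
    have : Function.Semiconj e s (fun x => e (s (e.symm x))) := fun x => by simp
    rw [← hk, (this.iterate_right k).eq]

def cyc3 {I : Type} [DecidableEq I] (a b c p : I) : I :=
  if p = a then b else if p = b then c else if p = c then a else p

theorem cyc3_inj {I : Type} [DecidableEq I] {a b c : I} (h1 : a ≠ b) (h2 : b ≠ c) (h3 : a ≠ c) :
    Function.Injective (cyc3 a b c) := by
  intro x y h
  unfold cyc3 at h
  split_ifs at h <;> simp_all

theorem follow {I T : Type} (f f' : I → I) (t : I → T) (ht : ∀ x, t (f x) = t x) (g : I)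
    (h : ∀ z, t z = t g → z ≠ g → f' z = f z) (k : ℕ) : ∃ j, f'^[j] (f g) = f^[k + 1] g := by
  induction k with
  | zero => exact ⟨0, rfl⟩
  | succ n ih =>
    obtain ⟨j, hj⟩ := ih
    have tt : ∀ m, t (f^[m] g) = t g := by
      intro m
      induction m with
      | zero => rfl
      | succ m ih => rw [Function.iterate_succ_apply', ht, ih]
    by_cases e : f^[n + 1] g = g
    · exact ⟨0, by rw [Function.iterate_succ_apply' f (n + 1), e]; rfl⟩
    · exact ⟨j + 1, by
        rw [Function.iterate_succ_apply', hj, h _ (tt _) e, Function.iterate_succ_apply' f (n + 1)]⟩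

abbrev A4 := alternatingGroup (Fin 4)

def ep : Fin 12 → Equiv.Perm (Fin 4) := ![1,
  Equiv.swap 0 1 * Equiv.swap 2 3,
  Equiv.swap 0 2 * Equiv.swap 1 3,
  Equiv.swap 0 3 * Equiv.swap 1 2,
  Equiv.swap 1 2 * Equiv.swap 2 3,
  Equiv.swap 1 2 * Equiv.swap 1 3,
  Equiv.swap 0 1 * Equiv.swap 1 3,
  Equiv.swap 0 1 * Equiv.swap 0 3,
  Equiv.swap 0 2 * Equiv.swap 2 3,
  Equiv.swap 0 1 * Equiv.swap 0 2,
  Equiv.swap 0 1 * Equiv.swap 1 2,
  Equiv.swap 0 2 * Equiv.swap 0 3]

theorem ep_mem : ∀ i, ep i ∈ alternatingGroup (Fin 4) := by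
  simp only [Equiv.Perm.mem_alternatingGroup]; decide

def ea (i : Fin 12) : A4 := ⟨ep i, ep_mem i⟩

theorem ea_bij : Function.Bijective ea := by
  rw [Fintype.bijective_iff_injective_and_card, card_alternatingGroup]
  refine ⟨fun i j h => ?_, by simp [Nat.factorial]⟩
  have : ∀ i j, ep i = ep j → i = j := by decide
  exact this i j (congrArg Subtype.val h)

def s : Fin 12 → Fin 12 := ![0, 2, 3, 4, 5, 6, 7, 8, 9, 10, 11, 1]

theorem hq (i j : Fin 12) (h : (ea i)⁻¹ * ea (s i) = (ea j)⁻¹ * ea (s j)) : i = j := by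
  have : ∀ i j, (ep i)⁻¹ * ep (s i) = (ep j)⁻¹ * ep (s j) → i = j := by decide
  exact this i j (congrArg Subtype.val h)

theorem e0 : ea 0 = 1 := rfl
theorem e1 : (ea 1)⁻¹ * ea 2 = ea 3 := Subtype.ext (show (ep 1)⁻¹ * ep 2 = ep 3 by decide)
theorem e2 : (ea 2)⁻¹ * ea 3 = (ea 1)⁻¹ := Subtype.ext (show (ep 2)⁻¹ * ep 3 = (ep 1)⁻¹ by decide)

def EE {F : Type} (p : Fin 12 × F) : A4 × Multiplicative F := (ea p.1, Multiplicative.ofAdd p.2)

theorem EE_bij {F : Type} : Function.Bijective (EE (F := F)) :=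
  ea_bij.prodMap (Multiplicative.ofAdd.bijective)

theorem Orth.map {G H : Type} [Group G] [Group H] (h : Orth G) (e : G ≃* H) : Orth H := by
  obtain ⟨f, hf, f1, hq, x0, hx, hr⟩ := h
  refine orth_of e e.bijective f 1 x0 hf e.map_one f1 (fun x y h => hq ?_) hx hr
  simp only [← map_inv, ← map_mul] at h
  exact e.injective h

theorem orth0 : Orth A4 :=
  orth_of ea ea_bij s 0 1 (by decide) e0 rfl hq (by decide) (by
    have : ∀ y : Fin 12, y ≠ 0 → ∃ k < 11, s^[k] 1 = y := by decide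
    intro y hy
    obtain ⟨k, -, hk⟩ := this y hy
    exact ⟨k, hk⟩)

def s1 (p : Fin 12 × ZMod 2) : Fin 12 × ZMod 2 :=
  if p.2 = 0 then ![(0, 0), (8, 0), (9, 1), (1, 1), (8, 1), (10, 0), (1, 0), (11, 1), (6, 1), (5, 0), (0, 1), (9, 0)] p.1
  else ![(10, 1), (7, 1), (4, 1), (2, 1), (5, 1), (2, 0), (4, 0), (7, 0), (11, 0), (3, 0), (3, 1), (6, 0)] p.1

theorem orth1 : Orth (A4 × Multiplicative (ZMod 2)) :=
  orth_of EE EE_bij s1 (0, 0) (0, 1) (by decide +kernel) rfl rfl (by
    have : ∀ i j : Fin 12 × ZMod 2, (ep i.1)⁻¹ * ep (s1 i).1 = (ep j.1)⁻¹ * ep (s1 j).1 →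
      -i.2 + (s1 i).2 = -j.2 + (s1 j).2 → i = j := by decide +kernel
    intro i j h
    exact this i j (congrArg (fun x => x.1.val) h) (congrArg (fun x => x.2.toAdd) h)) (by decide) (by
    have : ∀ y : Fin 12 × ZMod 2, y ≠ (0, 0) → ∃ k < 23, s1^[k] (0, 1) = y := by decide +kernel
    intro y hy
    obtain ⟨k, -, hk⟩ := this y hy
    exact ⟨k, hk⟩)

theorem orthF (F : Type) [Field F] [Finite F] (hF : 4 ≤ Nat.card F) :
    Orth (A4 × Multiplicative F) := by
  classical
  have := Fintype.ofFinite F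
  obtain ⟨g, hg⟩ := IsCyclic.exists_monoid_generator (α := Fˣ)
  have gen : ∀ x : F, x ≠ 0 → ∃ k, (g : F) ^ k = x := fun x hx => by
    obtain ⟨k, hk⟩ := hg (Units.mk0 x hx)
    exact ⟨k, by simpa using congrArg Units.val hk⟩
  have w0 : (g : F) ≠ 0 := g.ne_zero
  generalize (g : F) = w at gen w0
  have ex : ∀ B : F, ∃ u : F, u ≠ 0 ∧ u ≠ 1 ∧ u ≠ B := fun B => by
    by_contra hh
    have : (Finset.univ : Finset F) ⊆ {0, 1, B} := fun x _ => by
      simp only [Finset.mem_insert, Finset.mem_singleton]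
      by_contra h2
      push Not at h2
      exact hh ⟨x, h2⟩
    have h1 := Finset.card_le_card this
    have h2 : ({0, 1, B} : Finset F).card ≤ 3 := Finset.card_le_three
    rw [Finset.card_univ, ← Nat.card_eq_fintype_card] at h1
    omega
  have w1 : w ≠ 1 := fun h => by
    obtain ⟨u, u0, u1, -⟩ := ex 0
    obtain ⟨k, hk⟩ := gen u u0
    exact u1 (by rw [← hk, h, one_pow])
  have wi0 : w⁻¹ ≠ 0 := inv_ne_zero w0
  have wi1 : w⁻¹ ≠ 1 := fun h => w1 (inv_eq_one.1 h)
  have a0 : 1 - w⁻¹ ≠ 0 := fun h => wi1 (by linear_combination -h)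
  have a1 : 1 - w⁻¹ ≠ 1 := fun h => wi0 (by linear_combination -h)
  obtain ⟨u, u0, u1, u2⟩ := ex (w / (1 - w⁻¹))
  have v0 : w / (1 - w⁻¹) / u ≠ 0 := div_ne_zero (div_ne_zero w0 a0) u0
  have v1 : w / (1 - w⁻¹) / u ≠ 1 := fun h => u2 (by rw [div_eq_one_iff_eq u0] at h; exact h.symm)
  let c : Fin 12 → F := ![w, 1 - w⁻¹, u, w / (1 - w⁻¹) / u, w, w⁻¹, w, w⁻¹, w, w⁻¹, w, w⁻¹]
  have c0 : ∀ i, c i ≠ 0 := fun i => by fin_cases i <;> assumption
  have c1 : ∀ i, c i ≠ 1 := fun i => by fin_cases i <;> assumption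
  let f : Fin 12 × F → Fin 12 × F := fun p => (s p.1, c p.1 * p.2)
  have sinj : Function.Injective s := by decide
  have finj : Function.Injective f := by
    rintro ⟨i, x⟩ ⟨j, y⟩ h
    simp only [f, Prod.mk.injEq] at h
    obtain rfl := sinj h.1
    rw [mul_left_cancel₀ (c0 i) h.2]
  have qinj : Function.Injective fun p => (EE p)⁻¹ * EE (f p) := by
    rintro ⟨i, x⟩ ⟨j, y⟩ h
    obtain rfl := hq i j (congrArg Prod.fst h)
    have h2 : -x + c i * x = -y + c i * y := congrArg (fun x => x.2.toAdd) h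
    have : (c i - 1) * x = (c i - 1) * y := by linear_combination h2
    rw [mul_left_cancel₀ (sub_ne_zero.2 (c1 i)) this]
  have n12 : ((0, 1) : Fin 12 × F) ≠ (2, 0) := by simp
  have n23 : ((2, 0) : Fin 12 × F) ≠ (1, w) := by simp
  have n13 : ((0, 1) : Fin 12 × F) ≠ (1, w) := by simp
  let f' := f ∘ cyc3 (0, 1) (2, 0) (1, w)
  have k1 : f' (0, 1) = f (2, 0) := by simp [f', cyc3]
  have k2 : f' (2, 0) = f (1, w) := by simp [f', cyc3]
  have k3 : f' (1, w) = f (0, 1) := by simp [f', cyc3]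
  have k4 : ∀ p, p ≠ (0, 1) → p ≠ (2, 0) → p ≠ (1, w) → f' p = f p := fun p h1 h2 h3 => by
    simp [f', cyc3, h1, h2, h3]
  let t : Fin 12 × F → Prop × Prop := fun p => (p.1 = 0, p.2 = 0)
  have ht : ∀ p, t (f p) = t p := fun p => by
    have : ∀ i, s i = 0 ↔ i = 0 := by decide
    simp [t, f, this, c0]
  have F1 := follow f f' t ht (0, 1) (fun z h1 h2 => k4 z h2
    (by rintro rfl; simp [t] at h1) (by rintro rfl; simp [t] at h1))
  have F2 := follow f f' t ht (2, 0) (fun z h1 h2 => k4 z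
    (by rintro rfl; simp [t] at h1) h2 (by rintro rfl; simp [t, w0] at h1))
  have F3 := follow f f' t ht (1, w) (fun z h1 h2 => k4 z
    (by rintro rfl; simp [t] at h1) (by rintro rfl; simp [t, w0] at h1) h2)
  have O1 : ∀ x : F, x ≠ 0 → ∃ k, f^[k + 1] (0, 1) = (0, x) := fun x hx => by
    obtain ⟨k, hk⟩ := gen (x / w) (div_ne_zero hx w0)
    have : ∀ k, f^[k] (0, 1) = (0, w ^ k) := fun k => by
      induction k with
      | zero => simp
      | succ n ih => rw [Function.iterate_succ_apply', ih, pow_succ']; rfl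
    exact ⟨k, by rw [this, pow_succ, hk, div_mul_cancel₀ _ w0]⟩
  have it : ∀ k i, ∃ P : F, P ≠ 0 ∧ ∀ x, f^[k] (i, x) = (s^[k] i, P * x) := fun k i => by
    induction k with
    | zero => exact ⟨1, one_ne_zero, by simp⟩
    | succ n ih =>
      obtain ⟨P, P0, hP⟩ := ih
      exact ⟨c (s^[n] i) * P, mul_ne_zero (c0 _) P0, fun x => by
        rw [Function.iterate_succ_apply', hP, Function.iterate_succ_apply', mul_assoc]⟩
  have O2 : ∀ i, i ≠ 0 → ∃ k, f^[k + 1] (2, 0) = (i, 0) := fun i hi => by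
    have : ∀ y : Fin 12, y ≠ 0 → ∃ k < 11, s^[k + 1] 2 = y := by decide
    obtain ⟨k, -, hk⟩ := this i hi
    obtain ⟨P, -, hP⟩ := it (k + 1) 2
    exact ⟨k, by rw [hP, hk, mul_zero]⟩
  have O3 : ∀ i x, i ≠ 0 → x ≠ 0 → ∃ k, f^[k + 1] (1, w) = (i, x) := fun i x hi hx => by
    have : ∀ y : Fin 12, y ≠ 0 → ∃ k < 11, s^[k + 1] 1 = y := by decide
    obtain ⟨k, -, hk⟩ := this i hi
    obtain ⟨P, P0, hP⟩ := it (k + 1) 1
    obtain ⟨j, hj⟩ := gen (x / P / w) (div_ne_zero (div_ne_zero hx P0) w0)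
    have h11 : ∀ y, f^[11] (1, y) = (1, w * y) := fun y => by
      show ((1 : Fin 12), w⁻¹ * (w * (w⁻¹ * (w * (w⁻¹ * (w * (w⁻¹ * (w * (w / (1 - w⁻¹) / u *
        (u * ((1 - w⁻¹) * y))))))))))) = _
      congr 1
      field_simp
    have : ∀ j, f^[11 * j] (1, w) = (1, w ^ j * w) := fun j => by
      induction j with
      | zero => simp
      | succ n ih => rw [mul_add, mul_one, add_comm, Function.iterate_add_apply, ih, h11]; ring_nf
    refine ⟨k + 11 * j, ?_⟩
    rw [show k + 11 * j + 1 = (k + 1) + 11 * j by ring, Function.iterate_add_apply, this, hP, hk, hj]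
    congr 1
    field_simp
  have R1 : ∀ x : F, x ≠ 0 → ∃ k, f'^[k] (f (0, 1)) = (0, x) := fun x hx => by
    obtain ⟨k, hk⟩ := O1 x hx
    rw [← hk]; exact F1 k
  have R2 : ∀ i, i ≠ 0 → ∃ k, f'^[k] (f (0, 1)) = (i, 0) := fun i hi => by
    obtain ⟨k, hk⟩ := O2 i hi
    obtain ⟨j, hj⟩ := F2 k
    obtain ⟨l, hl⟩ := R1 1 one_ne_zero
    exact ⟨j + (l + 1), by
      rw [Function.iterate_add_apply, Function.iterate_succ_apply', hl, k1, hj, hk]⟩
  refine orth_of EE EE_bij f' (0, 0) (f (0, 1)) (finj.comp (cyc3_inj n12 n23 n13)) rfl ?_ ?_ ?_ ?_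
  · rw [k4 _ (by simp) (by simp) (by simp)]; simp [f, s]
  · have : (fun p => (EE p)⁻¹ * EE (f' p)) =
        (fun p => (EE p)⁻¹ * EE (f p)) ∘ cyc3 (0, 1) (1, w) (2, 0) := by
      funext p
      by_cases h1 : p = (0, 1)
      · subst h1
        rw [k1]
        simp only [Function.comp, cyc3, if_true]
        refine Prod.ext ((show (1 : A4)⁻¹ * ea 3 = ea 3 by simp).trans e1.symm) ?_
        apply Multiplicative.toAdd.injective
        show -1 + u * 0 = -w + (1 - w⁻¹) * w
        field_simp; ring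
      by_cases h2 : p = (2, 0)
      · subst h2
        rw [k2]
        simp only [Function.comp, cyc3, n12.symm, n23, if_true, if_false]
        refine Prod.ext ((inv_mul_cancel (ea 2)).trans (inv_mul_cancel (ea 0)).symm) ?_
        apply Multiplicative.toAdd.injective
        show -0 + (1 - w⁻¹) * w = -1 + w * 1
        field_simp; ring
      by_cases h3 : p = (1, w)
      · subst h3
        rw [k3]
        simp only [Function.comp, cyc3, n13.symm, if_true, if_false]
        refine Prod.ext ((mul_one (ea 1)⁻¹).trans e2.symm) ?_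
        apply Multiplicative.toAdd.injective
        show -w + w * 1 = -0 + u * 0
        ring
      · rw [k4 p h1 h2 h3]; simp [cyc3, h1, h2, h3]
    rw [this]
    exact qinj.comp (cyc3_inj n13 n23.symm n12)
  · simp [f, c, w0]
  · rintro ⟨i, x⟩ hy
    by_cases hi : i = 0
    · subst hi
      exact R1 x (fun h => hy (by rw [h]))
    by_cases hx : x = 0
    · subst hx; exact R2 i hi
    obtain ⟨k, hk⟩ := O3 i x hi hx
    obtain ⟨j, hj⟩ := F3 k
    obtain ⟨l, hl⟩ := R2 2 (by decide)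
    exact ⟨j + (l + 1), by
      rw [Function.iterate_add_apply, Function.iterate_succ_apply', hl, k2, hj, hk]⟩

theorem result (m : ℕ) :
    RSequenceable (alternatingGroup (Fin 4) × (Fin m → Multiplicative (ZMod 2))) := by
  apply Orth.rseq
  rcases m with _ | _ | m
  · exact orth0.map MulEquiv.prodUnique.symm
  · exact orth1.map (MulEquiv.prodCongr (MulEquiv.refl _) (MulEquiv.funUnique (Fin 1) _).symm)
  · have e : GaloisField 2 (m + 2) ≃ₗ[ZMod 2] (Fin (m + 2) → ZMod 2) :=
      LinearEquiv.ofFinrankEq _ _ (by rw [GaloisField.finrank 2 (by omega)]; simp)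
    refine (orthF (GaloisField 2 (m + 2)) ?_).map (MulEquiv.prodCongr (MulEquiv.refl _)
      ((AddEquiv.toMultiplicative e.toAddEquiv).trans (MulEquiv.piMultiplicative _)))
    rw [GaloisField.card 2 _ (by omega), pow_add]
    have : 0 < 2 ^ m := by positivity
    omega

end Pool.Agent.Results.MP_0ef4f9_co.Yes
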